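import Mathlib
import Pool.Agent.Y729.AV.Moments

/-!
# Torsion in families of abelian varieties: exponential moments

We consider arbitrary families of projective commutative algebraic groups (for instance of
principally polarised abelian varieties of any dimension) over a nonempty open set `disc ≠ 0` of
the affine space with coordinates `t_1, ..., t_M` over the ring of integers of a number field `k`.
They are given by equations and by addition laws (`Pool.Agent.Y729.AV.Family`, `IsGroupFamily`).

Let `T(v)` be the maximal number of the torsion points of the member with parameter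
`v ∈ 𝓞_k ^ M` over the extensions of `k` of degree at most `D`. We prove that the average of
`exp (c T(v)^θ)` over the members with parameters in the boxes is bounded, for a `c > 0` and
`θ = 1 / (2 g D [k : ℚ])`, where `g` is the dimension of the members. Hence all moments of `T`
are bounded, and the proportion of the members with `T > X` is `O(exp (-c X^θ))`, uniformly in the
size of the box.

Proof. Let `𝔭_p` be a prime of `k` above `p`. If `disc(v)` lies outside `𝔭_p` and `𝔭_q`, `p ≠ q`,
then reduction at places above them embeds the torsion subgroup of the points over `L` in the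
product of two groups of points over finite fields with at most `p ^ [L : ℚ]` and `q ^ [L : ℚ]`
elements, as the kernel of reduction has no torsion prime to the residue characteristic: this is
shown by expanding the addition laws at the neutral element. If there are no such `p`, `q` up to
`Q`, then `disc(v)` lies in `𝔭_p` for all `p ≤ Q` but one. By the Chinese remainder theorem and the
Schwartz-Zippel lemma this happens with probability `O(exp (-c Q))`, first for `4 ^ Q ≤ 2 H + 1`,
and then for all `Q`, as it does not happen at all for `Q > C log H`.
-/

namespace Pool.Agent.Results.MP_160b6c_nt.ExponentialMoments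

open MvPolynomial NumberField Pool.Agent.Y729.AV

open Classical in
/-- Let `k` be a number field with an integral basis `ω`, and let `𝒜` be a family of projective
commutative algebraic groups in `ℙ^N` over the locus `disc ≠ 0` of the affine space with coordinates
`t_1, ..., t_M` over `𝓞_k`.

(1) The members of `𝒜` have at most `(N + 1) |F|^N` points over every finite field `F`.

(2) Assume that the members of `𝒜` have at most `B |F|^g` points over every finite field `F`
(this holds for `g = N` by (1), and in general for `g` the dimension of the members and some `B`).
Let `D ≥ 1`. Then there is a function `T` on the parameters `v ∈ 𝓞_k ^ M` such that for all `v` with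
`disc(v) ≠ 0` and all extensions `L / k` of degree at most `D` the member with parameter `v` has at
most `T(v)` torsion points over `L`, and such that the mean value of `exp (c T(v) ^ θ)`,
`θ = 1 / (2 g D [k : ℚ])`, over the parameters in the boxes is bounded, for some `c > 0`. -/
theorem result (k : Type) [Field k] [NumberField k] (J : Type) [Fintype J]
    (ω : Module.Basis J ℤ (𝓞 k)) (M N : ℕ) (𝒜 : Family (MvPolynomial (Fin M) (𝓞 k)) N)
    (h𝒜 : 𝒜.IsGroupFamily) :
    (∀ (F : Type) [Field F] [Finite F] (φ : MvPolynomial (Fin M) (𝓞 k) →+* F),
      Nat.card (𝒜.Pts φ) ≤ (N + 1) * Nat.card F ^ N) ∧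
    ∀ g B : ℕ, 0 < g →
      (∀ (F : Type) [Field F] [Finite F] (φ : MvPolynomial (Fin M) (𝓞 k) →+* F),
        φ 𝒜.disc ≠ 0 → Nat.card (𝒜.Pts φ) ≤ B * Nat.card F ^ g) →
      ∀ D : ℕ, 0 < D →
      ∃ (T : (Fin M → 𝓞 k) → ℕ) (c C : ℝ), 0 < c ∧
        (∀ v : Fin M → 𝓞 k, eval v 𝒜.disc ≠ 0 → ∀ (L : Type) [Field L] [Algebra k L]
          [FiniteDimensional k L], Module.finrank k L ≤ D →
          ∀ [AddCommGroup (𝒜.Pts (special v L))], 𝒜.IsGroupLaw (special v L) →
          𝒜.torsionCount (special v L) ≤ T v) ∧
        ∀ H : ℕ, ∑ v ∈ (box ω M H).filter (fun v => eval v 𝒜.disc ≠ 0),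
          Real.exp (c * (T v : ℝ) ^ (1 / (2 * g * D * Module.finrank ℚ k) : ℝ)) ≤
            C * (box ω M H).card :=
  ⟨fun F _ _ φ => card_pts_le 𝒜 φ,
    fun _ _ hg hgB D hD => moments ω 𝒜 h𝒜 hg hgB D hD⟩

end Pool.Agent.Results.MP_160b6c_nt.ExponentialMoments
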