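import Mathlib
import Pool.Agent.Y729.AV.Gen3

/-!
# Torsion in families of abelian varieties: 100 percent of the members

We consider arbitrary families of projective commutative algebraic groups (for instance of
principally polarised abelian varieties of any dimension) over a nonempty open set `disc ≠ 0` of
the affine space with coordinates `t_1, ..., t_M` over the ring of integers of a number field `k`.
They are given by homogeneous equations and by addition laws (`Pool.Agent.Y729.AV.Family`,
`IsGroupFamily`). No assumption is made on the monodromy of the family.

Let `D` be an integer. We prove that for 100 percent of the parameters `v ∈ 𝓞_k ^ M` (ordered by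
the size of their coordinates in an integral basis) the member with parameter `v` has, for all
`n ≥ 1` at once, exactly as many geometric points of degree at most `D` over `k` killed by `n` as
the generic member has over the field `k(t_1, ..., t_M)`, and exactly as many torsion points of
degree at most `D` altogether; this number is finite. For `D = 1` this means that the torsion
subgroups of the group of `k`-rational points of the member and of the group of
`k(t_1, ..., t_M)`-rational points of the generic member are isomorphic.

Proof. The exponential moments of the torsion in families (theorem `moments`, see the hand-in
`ExponentialMoments`) show that outside of a set of parameters of small density the torsion points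
of degree at most `D` have bounded order. For a fixed order we consider an ultraproduct of the
field `k` over the parameters (an ultrafilter without sets of density zero); by Hilbert's
irreducibility theorem the generic field `k(t_1, ..., t_M)` is algebraically closed in it, and so
the points of degree at most `D` of order `n` of the ultraproduct of the members come from the
generic member. Conversely the points of the generic member specialise.
-/

namespace Pool.Agent.Results.MP_160b6c_nt.GenericTorsion

open MvPolynomial NumberField Pool.Agent.Y729.AV Filter Topology

open Classical in
/-- Let `k` be a number field with an integral basis `ω`, let `𝒜` be a family of projective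
commutative algebraic groups in `ℙ^N` over the locus `disc ≠ 0` of the affine space with coordinates
`t_1, ..., t_M` over `𝓞_k`, and let `D` be an integer. Then the generic member of `𝒜` has only
finitely many torsion points of degree at most `D` over the field `k(t_1, ..., t_M)`, and for 100
percent of the parameters `v ∈ 𝓞_k ^ M` the member with parameter `v` is defined (`disc(v) ≠ 0`),
and has exactly as many geometric points of degree at most `D` over `k` which are killed by `n`
as the generic member, for all `n ≥ 1` at once, and exactly as many torsion points of degree at most
`D` over `k` altogether. -/
theorem result (k : Type) [Field k] [NumberField k] (J : Type) [Fintype J]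
    (ω : Module.Basis J ℤ (𝓞 k)) (M N : ℕ) (𝒜 : Family (MvPolynomial (Fin M) (𝓞 k)) N)
    (h𝒜 : 𝒜.IsGroupFamily) (D : ℕ) :
    (𝒜.allTorsionPts (FractionRing (MvPolynomial (Fin M) (𝓞 k))) (generic k M) D).Finite ∧
    Tendsto (fun H : ℕ => (((box ω M H).filter fun v =>
        eval v 𝒜.disc ≠ 0 ∧
        (∀ n : ℕ, 0 < n → (𝒜.torsionPts k (spec v) D n).encard =
          (𝒜.torsionPts (FractionRing (MvPolynomial (Fin M) (𝓞 k))) (generic k M) D n).encard) ∧
        (𝒜.allTorsionPts k (spec v) D).encard =
          (𝒜.allTorsionPts (FractionRing (MvPolynomial (Fin M) (𝓞 k)))
            (generic k M) D).encard).card : ℝ) / (box ω M H).card) atTop (𝓝 1) := by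
  obtain ⟨h1, h2⟩ := conclusion ω h𝒜 D
  refine ⟨h1, (tendsto_of_D0 ω h2).congr fun H => ?_⟩
  refine congrArg (fun s : Finset (Fin M → 𝓞 k) => (s.card : ℝ) / (box ω M H).card) ?_
  ext v
  rw [Finset.mem_filter, Finset.mem_filter]
  exact Iff.rfl

end Pool.Agent.Results.MP_160b6c_nt.GenericTorsion
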